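import Mathlib
import Pool.Agent.Lib.MP_994fee_co.LemmaM75

/-!
# Cousins on a forest: the recursion

A graph with an order in which every vertex `v` has at most two earlier neighbours, and every
vertex `x` is one of two earlier neighbours of later vertices together with at most one vertex that
is earlier than `x` (its partner `e x`), which comes after all earlier neighbours of `x`.
-/

set_option autoImplicit false

namespace Pool.Agent.Lib.MP_994fee_co.Forest75

open Finset

/-- Recursive choice along a transitive well-founded relation. -/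
theorem exists_seq {V α : Type*} [Inhabited α] (r : V → V → Prop) (wf : WellFounded r)
    (htr : ∀ x y z, r x y → r y z → r x z) (R : V → (V → α) → α → Prop)
    (hR : ∀ x D D' p, (∀ y, r y x → D y = D' y) → R x D p → R x D' p)
    (hex : ∀ x D, (∀ y, r y x → R y D (D y)) → ∃ p, R x D p) : ∃ D : V → α, ∀ x, R x D (D x) := by
  classical
  let G : (x : V) → ((y : V) → r y x → α) → V → α :=
    fun x ih y => if h : r y x then ih y h else default
  let pick : V → (V → α) → α := fun x D => if h : ∃ p, R x D p then Classical.choose h else default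
  let D : V → α := wf.fix (fun x ih => pick x (G x ih))
  have hD : ∀ x, D x = pick x (G x (fun y _ => D y)) := by
    intro x
    exact wf.fix_eq _ x
  refine ⟨D, fun x => ?_⟩
  induction x using wf.induction with
  | _ x ih =>
    have hG : ∀ y, r y x → G x (fun y _ => D y) y = D y := by
      intro y hy
      simp only [G, hy, dif_pos]
    have h1 : ∃ p, R x (G x (fun y _ => D y)) p := by
      apply hex
      intro y hy
      rw [hG y hy]
      exact hR y D _ _ (fun z hz => (hG z (htr z y x hz hy)).symm) (ih y hy)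
    have h2 : R x (G x (fun y _ => D y)) (D x) := by
      rw [hD x]
      simp only [pick, h1, dif_pos]
      exact Classical.choose_spec h1
    exact hR x _ D _ hG h2

/-- The data of a vertex: its colour as a function of the hint of its parents, and its bad colours
as a function of the colours of its parents and of the hint it shares with its partner. -/
abbrev Dat (q : ℕ) : Type :=
  (Finset (Fin q × Fin q) → Fin q) × (Fin q × Fin q → Finset (Fin q × Fin q) → Fin q → Prop)

instance (q : ℕ) [NeZero q] : Inhabited (Dat q) := ⟨(fun _ => 0, fun _ _ _ => False)⟩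

section

variable {V : Type} {q : ℕ} [NeZero q]

/-- The hint of the parents of `w`. -/
noncomputable def Tt (h : V → V) (kd : V → ℕ) (I : V → Finset (Fin q)) (J : V → Finset (Fin q × Fin q)) (w : V) :
    Finset (Fin q × Fin q) :=
  if kd w = 0 then {(0, 0)} else if kd w = 1 then (I (h w)).image (fun a => (a, 0)) else J (h w)

/-- The colouring seen by `x`: the parents have the colours `k`. -/
noncomputable def colx (rk : V → ℕ) (h : V → V) (x : V) (k : Fin q × Fin q) (C : V → Fin q) (w : V) : Fin q := by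
  classical
  exact if rk w < rk x then (if w = h x then k.1 else k.2) else C w

/-- The bad colours of `x`. -/
def BadF (rk : V → ℕ) (h e : V → V) (kd : V → ℕ) (r : ℕ) (f : V → (V → Fin q) → Fin q)
    (D : V → Dat q) (x : V) (k : Fin q × Fin q) (J0 : Finset (Fin q × Fin q)) (b : Fin q) : Prop :=
  ∃ (T : V → Finset (Fin q × Fin q)) (κ : V → Fin q × Fin q),
    (∀ y, y ≠ x → e y = x → (T y).card ≤ r ∧ κ y ∈ T y) ∧
    ∀ (I : V → Finset (Fin q)) (J : V → Finset (Fin q × Fin q)), J x = J0 → (I x).card ≤ r →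
      b ∈ I x →
      (∀ y, y ≠ x → e y = x → (J y).card ≤ r ∧ ((D y).1 (T y), b) ∈ J y ∧
        ¬ (D y).2 (κ y) (J y) ((D y).1 (T y))) →
      f x (colx rk h x k (fun w => (D w).1 (Tt h kd I J w))) = b

/-- The colours of `x` can be linked: any two situations have a common hint. -/
def Linked (r : ℕ) (p : Dat q) : Prop :=
  ∀ T T' : Finset (Fin q × Fin q), T.card ≤ r → T'.card ≤ r → ∀ k ∈ T, ∀ k' ∈ T', ∀ a a' : Fin q,
    ∃ J : Finset (Fin q × Fin q), J.card ≤ r ∧ (p.1 T, a) ∈ J ∧ (p.1 T', a') ∈ J ∧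
      ¬ p.2 k J (p.1 T) ∧ ¬ p.2 k' J (p.1 T')

/-- The abstract form of the order. -/
structure Frame (G : SimpleGraph V) (rk : V → ℕ) (h e : V → V) (kd : V → ℕ) : Prop where
  inj : Function.Injective rk
  he : ∀ y, e y ≠ y → rk (e y) < rk y
  h1 : ∀ w, kd w ≠ 0 → rk (h w) < rk w
  h2 : ∀ w, kd w ≠ 0 → kd w ≠ 1 → e (h w) ≠ h w
  low : ∀ x z, G.Adj x z → rk z < rk x → kd x ≠ 0 ∧ (z = h x ∨ (kd x ≠ 1 ∧ z = e (h x)))
  par : ∀ y, e y ≠ y → kd y ≠ 0 → rk (h y) < rk (e y)

/-- At most one bad colour. -/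
lemma badF_unique {rk : V → ℕ} {h e : V → V} {kd : V → ℕ} {r : ℕ}
    {f : V → (V → Fin q) → Fin q} {D : V → Dat q} {x : V} (hr : 2 ≤ r)
    (hL : ∀ y, y ≠ x → e y = x → Linked r (D y)) {k : Fin q × Fin q}
    {J0 : Finset (Fin q × Fin q)} {b b' : Fin q} (hb : BadF rk h e kd r f D x k J0 b)
    (hb' : BadF rk h e kd r f D x k J0 b') : b = b' := by
  classical
  obtain ⟨T, κ, hT, hF⟩ := hb
  obtain ⟨T', κ', hT', hF'⟩ := hb'
  have hch : ∀ y, ∃ J : Finset (Fin q × Fin q), y ≠ x → e y = x → J.card ≤ r ∧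
      ((D y).1 (T y), b) ∈ J ∧ ((D y).1 (T' y), b') ∈ J ∧
      ¬ (D y).2 (κ y) J ((D y).1 (T y)) ∧ ¬ (D y).2 (κ' y) J ((D y).1 (T' y)) := by
    intro y
    by_cases hy : y ≠ x ∧ e y = x
    · obtain ⟨J, hJ⟩ := hL y hy.1 hy.2 (T y) (T' y) (hT y hy.1 hy.2).1 (hT' y hy.1 hy.2).1
        (κ y) (hT y hy.1 hy.2).2 (κ' y) (hT' y hy.1 hy.2).2 b b'
      exact ⟨J, fun _ _ => hJ⟩
    · exact ⟨∅, fun h1 h2 => absurd ⟨h1, h2⟩ hy⟩
  choose J hJ using hch
  have hcard : (({b, b'} : Finset (Fin q))).card ≤ r := le_trans Finset.card_le_two hr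
  let J' : V → Finset (Fin q × Fin q) := fun y => if y = x then J0 else J y
  have hJx : J' x = J0 := by simp [J']
  have hJy : ∀ y, y ≠ x → J' y = J y := by
    intro y hy
    simp [J', hy]
  have e1 := hF (fun _ => {b, b'}) J' hJx hcard (by simp) (by
    intro y h1 h2
    rw [hJy y h1]
    obtain ⟨h3, h4, h5, h6, h7⟩ := hJ y h1 h2
    exact ⟨h3, h4, h6⟩)
  have e2 := hF' (fun _ => {b, b'}) J' hJx hcard (by simp) (by
    intro y h1 h2
    rw [hJy y h1]
    obtain ⟨h3, h4, h5, h6, h7⟩ := hJ y h1 h2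
    exact ⟨h3, h5, h7⟩)
  rw [← e1, e2]

/-- The choice of the colours of `x`. -/
lemma exists_linked {r c g : ℕ} (h1 : 16 * g ≤ r) (h2 : q ^ 3 < c ^ (2 * g - 1))
    (h3 : (c + 1) * r < q) (Bd : Fin q × Fin q → Finset (Fin q × Fin q) → Fin q → Prop)
    (hBd : ∀ k J b b', Bd k J b → Bd k J b' → b = b') :
    ∃ γ : Finset (Fin q × Fin q) → Fin q, Linked r (γ, Bd) := by
  classical
  let E : (Fin q × Fin q) × Fin q → (Fin q × Fin q) × Fin q → Prop := fun x y =>
    ∃ a a' : Fin q, ∀ J : Finset (Fin q × Fin q), J.card ≤ r → (x.2, a) ∈ J → (y.2, a') ∈ J →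
      Bd x.1 J x.2 ∨ Bd y.1 J y.2
  obtain ⟨C, hC, hCE⟩ := LemmaM75.lemmaM' (K := Fin q × Fin q) (q := q) (c := c) (g := g) E
    (by
      rintro x y ⟨a, a', ha⟩
      exact ⟨a', a, fun J hJ h4 h5 => (ha J hJ h5 h4).symm⟩)
    (by
      intro S hS hSE
      have hch : ∀ e : ((Fin q × Fin q) × Fin q) × ((Fin q × Fin q) × Fin q), ∃ a a' : Fin q,
          e ∈ S → ∀ J : Finset (Fin q × Fin q), J.card ≤ r → (e.1.2, a) ∈ J → (e.2.2, a') ∈ J →
            Bd e.1.1 J e.1.2 ∨ Bd e.2.1 J e.2.2 := by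
        intro e
        by_cases he : e ∈ S
        · obtain ⟨a, a', ha⟩ := hSE e he
          exact ⟨a, a', fun _ => ha⟩
        · exact ⟨0, 0, fun h => absurd h he⟩
      choose a a' ha using hch
      let J : Finset (Fin q × Fin q) := S.biUnion (fun e => {(e.1.2, a e), (e.2.2, a' e)})
      have hJc : J.card ≤ r := by
        calc J.card ≤ ∑ e ∈ S, ({(e.1.2, a e), (e.2.2, a' e)} : Finset (Fin q × Fin q)).card :=
              Finset.card_biUnion_le
          _ ≤ ∑ _e ∈ S, 2 := Finset.sum_le_sum (fun e _ => Finset.card_le_two)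
          _ = S.card * 2 := by rw [Finset.sum_const, smul_eq_mul]
          _ ≤ r := by omega
      refine ⟨fun k => if hk : ∃ b, Bd k J b then Classical.choose hk else 0, ?_⟩
      have hφ : ∀ k b, Bd k J b →
          (if hk : ∃ b, Bd k J b then Classical.choose hk else (0 : Fin q)) = b := by
        intro k b hb
        have hk : ∃ b, Bd k J b := ⟨b, hb⟩
        rw [dif_pos hk]
        exact hBd k J _ _ (Classical.choose_spec hk) hb
      intro e he
      have m1 : (e.1.2, a e) ∈ J := Finset.mem_biUnion.2 ⟨e, he, by simp⟩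
      have m2 : (e.2.2, a' e) ∈ J := Finset.mem_biUnion.2 ⟨e, he, by simp⟩
      rcases ha e he J hJc m1 m2 with h4 | h4
      · exact Or.inl (hφ _ _ h4)
      · exact Or.inr (hφ _ _ h4))
    (by
      rw [Fintype.card_prod, Fintype.card_fin, ← pow_two, ← pow_succ]
      exact h2)
  have hγ : ∀ T : Finset (Fin q × Fin q), ∃ b : Fin q, T.card ≤ r → ∀ k ∈ T, b ∉ C k := by
    intro T
    by_cases hT : T.card ≤ r
    · have hlt : (T.biUnion C).card < (Finset.univ : Finset (Fin q)).card := by
        rw [Finset.card_univ, Fintype.card_fin]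
        calc (T.biUnion C).card ≤ ∑ k ∈ T, (C k).card := Finset.card_biUnion_le
          _ ≤ ∑ _k ∈ T, (c + 1) := Finset.sum_le_sum (fun k _ => hC k)
          _ = T.card * (c + 1) := by rw [Finset.sum_const, smul_eq_mul]
          _ ≤ r * (c + 1) := Nat.mul_le_mul_right _ hT
          _ < q := by rw [mul_comm]; exact h3
      obtain ⟨b, _, hb⟩ := Finset.exists_mem_notMem_of_card_lt_card hlt
      exact ⟨b, fun _ k hk hbk => hb (Finset.mem_biUnion.2 ⟨k, hk, hbk⟩)⟩
    · exact ⟨0, fun h => absurd h hT⟩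
  choose γ hγ using hγ
  refine ⟨γ, ?_⟩
  intro T T' hT hT' k hk k' hk' a a'
  by_contra hcon
  push Not at hcon
  have hE : E (k, γ T) (k', γ T') := by
    refine ⟨a, a', fun J hJ m1 m2 => ?_⟩
    by_contra h5
    push Not at h5
    exact h5.2 (hcon J hJ m1 m2 h5.1)
  rcases hCE _ _ hE with h4 | h4
  · exact hγ T hT k hk h4
  · exact hγ T' hT' k' hk' h4

end

end Pool.Agent.Lib.MP_994fee_co.Forest75
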