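import Mathlib

/-!
# Partner forests: the definition
-/

set_option autoImplicit false

namespace Pool.Agent.Lib.MP_994fee_co

/-- `G` is a partner forest: the vertices can be ordered (by the injective function `rk`) so that
every vertex has at most two earlier neighbours, and whenever `u < x` are the two earlier neighbours
of some vertex, all earlier neighbours of `x` come before `u`, and `u` is the only vertex earlier
than `x` which is together with `x` the pair of earlier neighbours of a vertex. -/
def PartnerForest {V : Type} (G : SimpleGraph V) : Prop :=
  ∃ rk : V → ℕ, Function.Injective rk ∧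
    (∀ v, {u | G.Adj v u ∧ rk u < rk v}.ncard ≤ 2) ∧
    ∀ v u x, G.Adj v u → G.Adj v x → rk u < rk x → rk x < rk v →
      (∀ z, G.Adj x z → rk z < rk x → rk z < rk u) ∧
      ∀ v' u', G.Adj v' u' → G.Adj v' x → rk u' < rk x → rk x < rk v' → u' = u

end Pool.Agent.Lib.MP_994fee_co
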