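import Mathlib
import Pool.Agent.Lib.MP_994fee_co.Forest.Core75

/-!
# Cousins on a forest: the two recursions
-/

set_option autoImplicit false

namespace Pool.Agent.Lib.MP_994fee_co.Forest75

open Finset

section

variable {V : Type} {q : ℕ} [NeZero q]

omit [NeZero q] in
lemma colx_lt_eq {rk : V → ℕ} {h : V → V} {x w : V} {k : Fin q × Fin q} {C : V → Fin q}
    (hw : rk w < rk x) (h1 : w = h x) : colx rk h x k C w = k.1 := by
  classical
  unfold colx
  rw [if_pos hw, if_pos h1]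

omit [NeZero q] in
lemma colx_lt_ne {rk : V → ℕ} {h : V → V} {x w : V} {k : Fin q × Fin q} {C : V → Fin q}
    (hw : rk w < rk x) (h1 : w ≠ h x) : colx rk h x k C w = k.2 := by
  classical
  unfold colx
  rw [if_pos hw, if_neg h1]

omit [NeZero q] in
lemma colx_lt {rk : V → ℕ} {h : V → V} {x w : V} {k : Fin q × Fin q} {C C' : V → Fin q}
    (hw : rk w < rk x) : colx rk h x k C w = colx rk h x k C' w := by
  by_cases h1 : w = h x
  · rw [colx_lt_eq hw h1, colx_lt_eq hw h1]
  · rw [colx_lt_ne hw h1, colx_lt_ne hw h1]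

omit [NeZero q] in
lemma colx_ge {rk : V → ℕ} {h : V → V} {x w : V} {k : Fin q × Fin q} {C : V → Fin q}
    (hw : ¬ rk w < rk x) : colx rk h x k C w = C w := by
  classical
  unfold colx
  rw [if_neg hw]

/-- The bad colours depend only on the later vertices. -/
lemma badF_congr {G : SimpleGraph V} {rk : V → ℕ} {h e : V → V} {kd : V → ℕ}
    (F : Frame G rk h e kd) {r : ℕ} {f : V → (V → Fin q) → Fin q}
    (hf : ∀ x C C', (∀ z, G.Adj x z → C z = C' z) → f x C = f x C') {x : V} {D D' : V → Dat q}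
    (hD : ∀ y, rk x < rk y → D y = D' y) {k : Fin q × Fin q} {J0 : Finset (Fin q × Fin q)}
    {b : Fin q} (hb : BadF rk h e kd r f D x k J0 b) : BadF rk h e kd r f D' x k J0 b := by
  classical
  obtain ⟨T, κ, hT, hF⟩ := hb
  refine ⟨T, κ, hT, ?_⟩
  intro I J hJ hI hbI hy
  rw [← hF I J hJ hI hbI (by
    intro y h1 h2
    have h3 : rk x < rk y := by
      have := F.he y (by rw [h2]; exact fun h => h1 h.symm)
      rwa [h2] at this
    rw [hD y h3]
    exact hy y h1 h2)]
  apply hf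
  intro z hz
  by_cases h1 : rk z < rk x
  · exact colx_lt h1
  · rw [colx_ge h1, colx_ge h1]
    have h2 : z ≠ x := fun h => G.loopless.irrefl x (by rw [h] at hz; exact hz)
    have h3 : rk x ≠ rk z := fun h => h2 (F.inj h).symm
    rw [hD z (by omega)]

/-- The first recursion. -/
theorem exists_data [Finite V] {r c g : ℕ} (hr : 2 ≤ r) (h1 : 16 * g ≤ r)
    (h2 : q ^ 3 < c ^ (2 * g - 1)) (h3 : (c + 1) * r < q) {G : SimpleGraph V} {rk : V → ℕ}
    {h e : V → V} {kd : V → ℕ} (F : Frame G rk h e kd) {f : V → (V → Fin q) → Fin q}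
    (hf : ∀ x C C', (∀ z, G.Adj x z → C z = C' z) → f x C = f x C') :
    ∃ D : V → Dat q, ∀ x, (∀ k J b, (D x).2 k J b ↔ BadF rk h e kd r f D x k J b) ∧
      Linked r (D x) := by
  classical
  apply exists_seq (fun y x : V => rk x < rk y) ?_ (fun x y z h1 h2 => lt_trans h2 h1)
    (fun x D p => (∀ k J b, p.2 k J b ↔ BadF rk h e kd r f D x k J b) ∧ Linked r p)
  · rintro x D D' p hD ⟨h4, h5⟩
    refine ⟨fun k J b => (h4 k J b).trans ⟨fun h6 => badF_congr F hf hD h6, fun h6 => ?_⟩, h5⟩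
    exact badF_congr F hf (fun y hy => (hD y hy).symm) h6
  · intro x D hD
    obtain ⟨γ, hγ⟩ := exists_linked h1 h2 h3 (fun k J b => BadF rk h e kd r f D x k J b)
      (by
        intro k J b b' hb hb'
        refine badF_unique hr ?_ hb hb'
        intro y h4 h5
        have h6 : rk x < rk y := by
          have := F.he y (by rw [h5]; exact fun h => h4 h.symm)
          rwa [h5] at this
        exact (hD y h6).2)
    exact ⟨(γ, fun k J b => BadF rk h e kd r f D x k J b), fun k J b => Iff.rfl, hγ⟩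
  · have : IsTrans V (fun y x : V => rk x < rk y) := ⟨fun x y z h1 h2 => lt_trans h2 h1⟩
    have : Std.Irrefl (fun y x : V => rk x < rk y) := ⟨fun x h1 => lt_irrefl _ h1⟩
    exact Finite.wellFounded_of_trans_of_irrefl _

/-! ### The second recursion -/

/-- The hints chosen at the vertex `x`: for `x`, and for the pairs `(y, x)`. -/
abbrev Hin (V : Type) (q : ℕ) : Type := Finset (Fin q) × (V → Finset (Fin q × Fin q))

def Iof (D : V → Hin V q) (z : V) : Finset (Fin q) := (D z).1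

def Jof (e : V → V) (D : V → Hin V q) (y : V) : Finset (Fin q × Fin q) := (D (e y)).2 y

noncomputable def Tof (h e : V → V) (kd : V → ℕ) (D : V → Hin V q) (w : V) :
    Finset (Fin q × Fin q) :=
  Tt h kd (Iof D) (Jof e D) w

noncomputable def Cof (h e : V → V) (kd : V → ℕ) (γ : V → Finset (Fin q × Fin q) → Fin q)
    (D : V → Hin V q) (w : V) : Fin q :=
  γ w (Tof h e kd D w)

noncomputable def kof (h e : V → V) (kd : V → ℕ) (γ : V → Finset (Fin q × Fin q) → Fin q)
    (D : V → Hin V q) (w : V) : Fin q × Fin q :=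
  if kd w = 0 then (0, 0) else if kd w = 1 then (Cof h e kd γ D (h w), 0)
    else (Cof h e kd γ D (h w), Cof h e kd γ D (e (h w)))

lemma rk_e_le {G : SimpleGraph V} {rk : V → ℕ} {h e : V → V} {kd : V → ℕ}
    (F : Frame G rk h e kd) (y : V) : rk (e y) ≤ rk y := by
  by_cases h1 : e y = y
  · rw [h1]
  · exact (F.he y h1).le

lemma tof_congr {G : SimpleGraph V} {rk : V → ℕ} {h e : V → V} {kd : V → ℕ}
    (F : Frame G rk h e kd) {x : V} {D D' : V → Hin V q} (hD : ∀ y, rk y < rk x → D y = D' y)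
    {z : V} (hz : kd z ≠ 0 → rk (h z) < rk x) : Tof h e kd D z = Tof h e kd D' z := by
  classical
  unfold Tof Tt
  by_cases h0 : kd z = 0
  · rw [if_pos h0, if_pos h0]
  · rw [if_neg h0, if_neg h0]
    have h1 := hz h0
    by_cases h2 : kd z = 1
    · rw [if_pos h2, if_pos h2]
      unfold Iof
      rw [hD _ h1]
    · rw [if_neg h2, if_neg h2]
      unfold Jof
      rw [hD _ (lt_of_le_of_lt (rk_e_le F _) h1)]

lemma cof_congr {G : SimpleGraph V} {rk : V → ℕ} {h e : V → V} {kd : V → ℕ}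
    (F : Frame G rk h e kd) {γ : V → Finset (Fin q × Fin q) → Fin q} {x : V}
    {D D' : V → Hin V q} (hD : ∀ y, rk y < rk x → D y = D' y)
    {z : V} (hz : kd z ≠ 0 → rk (h z) < rk x) : Cof h e kd γ D z = Cof h e kd γ D' z := by
  unfold Cof
  rw [tof_congr F hD hz]

lemma kof_congr {G : SimpleGraph V} {rk : V → ℕ} {h e : V → V} {kd : V → ℕ}
    (F : Frame G rk h e kd) {γ : V → Finset (Fin q × Fin q) → Fin q} {x : V}
    {D D' : V → Hin V q} (hD : ∀ y, rk y < rk x → D y = D' y)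
    {z : V} (hz : kd z ≠ 0 → rk (h z) < rk x) : kof h e kd γ D z = kof h e kd γ D' z := by
  classical
  unfold kof
  by_cases h0 : kd z = 0
  · rw [if_pos h0, if_pos h0]
  · rw [if_neg h0, if_neg h0]
    have h1 := hz h0
    have h3 : Cof h e kd γ D (h z) = Cof h e kd γ D' (h z) :=
      cof_congr F hD (fun h4 => lt_trans (F.h1 _ h4) h1)
    have h5 : Cof h e kd γ D (e (h z)) = Cof h e kd γ D' (e (h z)) :=
      cof_congr F hD (fun h4 => lt_trans (F.h1 _ h4) (lt_of_le_of_lt (rk_e_le F _) h1))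
    rw [h3, h5]

/-- What is required at the vertex `x`. -/
def Rr (rk : V → ℕ) (h e : V → V) (kd : V → ℕ) (r : ℕ) (f : V → (V → Fin q) → Fin q)
    (D₀ : V → Dat q) (x : V) (D : V → Hin V q) (p : Hin V q) : Prop :=
  p.1.card ≤ r ∧ Cof h e kd (fun w => (D₀ w).1) D x ∈ p.1 ∧
    (∀ y, y ≠ x → e y = x → (p.2 y).card ≤ r ∧
      (Cof h e kd (fun w => (D₀ w).1) D y, Cof h e kd (fun w => (D₀ w).1) D x) ∈ p.2 y ∧
      ¬ (D₀ y).2 (kof h e kd (fun w => (D₀ w).1) D y) (p.2 y)
        (Cof h e kd (fun w => (D₀ w).1) D y)) ∧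
    ∃ (I : V → Finset (Fin q)) (J : V → Finset (Fin q × Fin q)), I x = p.1 ∧
      (e x = x → J x = p.2 x) ∧ (e x ≠ x → J x = (D (e x)).2 x) ∧
      (∀ y, y ≠ x → e y = x → J y = p.2 y) ∧
      f x (colx rk h x (kof h e kd (fun w => (D₀ w).1) D x)
        (fun w => (D₀ w).1 (Tt h kd I J w))) ≠ Cof h e kd (fun w => (D₀ w).1) D x

theorem exists_hints [Finite V] {r : ℕ} (hr : 1 ≤ r) {G : SimpleGraph V} {rk : V → ℕ}
    {h e : V → V} {kd : V → ℕ} (F : Frame G rk h e kd) {f : V → (V → Fin q) → Fin q}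
    {D₀ : V → Dat q}
    (h₀ : ∀ x, (∀ k J b, (D₀ x).2 k J b ↔ BadF rk h e kd r f D₀ x k J b) ∧ Linked r (D₀ x)) :
    ∃ D : V → Hin V q, ∀ x, Rr rk h e kd r f D₀ x D (D x) := by
  classical
  let _ : Inhabited (Hin V q) := ⟨(∅, fun _ => ∅)⟩
  apply exists_seq (fun y x : V => rk y < rk x) ?_ (fun x y z h1 h2 => lt_trans h1 h2)
    (fun x D p => Rr rk h e kd r f D₀ x D p)
  · rintro x D D' p hD ⟨h1, h2, h3, I, J, h4, h5, h6, h7, h8⟩
    have hCx : Cof h e kd (fun w => (D₀ w).1) D x = Cof h e kd (fun w => (D₀ w).1) D' x :=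
      cof_congr F hD (F.h1 x)
    have hkx : kof h e kd (fun w => (D₀ w).1) D x = kof h e kd (fun w => (D₀ w).1) D' x :=
      kof_congr F hD (F.h1 x)
    refine ⟨h1, hCx ▸ h2, ?_, I, J, h4, h5, ?_, h7, ?_⟩
    · intro y hy hyx
      have hpar : kd y ≠ 0 → rk (h y) < rk x := by
        intro h9
        have := F.par y (by rw [hyx]; exact fun h => hy h.symm) h9
        rwa [hyx] at this
      rw [← cof_congr F hD hpar, ← kof_congr F hD hpar, ← hCx]
      exact h3 y hy hyx
    · intro hx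
      rw [h6 hx, hD _ (F.he x hx)]
    · rw [← hkx, ← hCx]
      exact h8
  · intro x D hD
    have hmem : ∀ z, (kd z ≠ 0 → rk (h z) < rk x) → (Tof h e kd D z).card ≤ r ∧
        kof h e kd (fun w => (D₀ w).1) D z ∈ Tof h e kd D z := by
      intro z hz
      unfold Tof Tt kof
      by_cases h0 : kd z = 0
      · rw [if_pos h0, if_pos h0]
        exact ⟨by rw [Finset.card_singleton]; exact hr, Finset.mem_singleton_self _⟩
      · rw [if_neg h0, if_neg h0]
        have h1 := hz h0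
        by_cases h2 : kd z = 1
        · rw [if_pos h2, if_pos h2]
          obtain ⟨h3, h4, _⟩ := hD _ h1
          exact ⟨le_trans Finset.card_image_le h3, Finset.mem_image_of_mem _ h4⟩
        · rw [if_neg h2, if_neg h2]
          have h5 := F.h2 z h0 h2
          obtain ⟨_, _, h6, _⟩ := hD (e (h z)) (lt_of_le_of_lt (rk_e_le F _) h1)
          obtain ⟨h7, h8, _⟩ := h6 (h z) (fun h => h5 h.symm) rfl
          exact ⟨h7, h8⟩
    have hJ0 : ∃ J0 : Finset (Fin q × Fin q),
        ¬ (D₀ x).2 (kof h e kd (fun w => (D₀ w).1) D x) J0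
          (Cof h e kd (fun w => (D₀ w).1) D x) ∧ (e x ≠ x → J0 = (D (e x)).2 x) := by
      by_cases hx : e x = x
      · obtain ⟨hm1, hm2⟩ := hmem x (F.h1 x)
        obtain ⟨J0, _, _, _, h4, _⟩ := (h₀ x).2 _ _ hm1 hm1 _ hm2 _ hm2 0 0
        exact ⟨J0, h4, fun h5 => absurd hx h5⟩
      · obtain ⟨_, _, h6, _⟩ := hD (e x) (F.he x hx)
        obtain ⟨_, _, h9⟩ := h6 x (fun h => hx h.symm) rfl
        exact ⟨_, h9, fun _ => rfl⟩
    obtain ⟨J0, hJ1, hJ2⟩ := hJ0
    rw [(h₀ x).1] at hJ1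
    have hnb : ¬ ∀ (I : V → Finset (Fin q)) (J : V → Finset (Fin q × Fin q)), J x = J0 →
        (I x).card ≤ r → Cof h e kd (fun w => (D₀ w).1) D x ∈ I x →
        (∀ y, y ≠ x → e y = x → (J y).card ≤ r ∧
          ((D₀ y).1 (Tof h e kd D y), Cof h e kd (fun w => (D₀ w).1) D x) ∈ J y ∧
          ¬ (D₀ y).2 (kof h e kd (fun w => (D₀ w).1) D y) (J y)
            ((D₀ y).1 (Tof h e kd D y))) →
        f x (colx rk h x (kof h e kd (fun w => (D₀ w).1) D x)
          (fun w => (D₀ w).1 (Tt h kd I J w))) = Cof h e kd (fun w => (D₀ w).1) D x := by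
      intro hall
      apply hJ1
      refine ⟨fun y => Tof h e kd D y, fun y => kof h e kd (fun w => (D₀ w).1) D y, ?_, hall⟩
      intro y hy hyx
      apply hmem
      intro h9
      have := F.par y (by rw [hyx]; exact fun h => hy h.symm) h9
      rwa [hyx] at this
    push Not at hnb
    obtain ⟨I, J, h1, h2, h3, h4, h5⟩ := hnb
    refine ⟨(I x, J), h2, h3, h4, I, J, rfl, fun _ => rfl, ?_, fun _ _ _ => rfl, h5⟩
    intro hx
    rw [h1, hJ2 hx]
  · have : IsTrans V (fun y x : V => rk y < rk x) := ⟨fun x y z h1 h2 => lt_trans h1 h2⟩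
    have : Std.Irrefl (fun y x : V => rk y < rk x) := ⟨fun x h1 => lt_irrefl _ h1⟩
    exact Finite.wellFounded_of_trans_of_irrefl _

/-- The game is lost by the players. -/
theorem game [Finite V] {r c g : ℕ} (hr : 2 ≤ r) (h1 : 16 * g ≤ r)
    (h2 : q ^ 3 < c ^ (2 * g - 1)) (h3 : (c + 1) * r < q) {G : SimpleGraph V} {rk : V → ℕ}
    {h e : V → V} {kd : V → ℕ} (F : Frame G rk h e kd) (f : V → (V → Fin q) → Fin q)
    (hf : ∀ x C C', (∀ z, G.Adj x z → C z = C' z) → f x C = f x C') :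
    ∃ C : V → Fin q, ∀ x, f x C ≠ C x := by
  classical
  obtain ⟨D₀, h₀⟩ := exists_data hr h1 h2 h3 F hf
  obtain ⟨D, hD⟩ := exists_hints (le_trans (by norm_num) hr) F h₀
  refine ⟨Cof h e kd (fun w => (D₀ w).1) D, fun x => ?_⟩
  obtain ⟨_, _, _, I, J, h4, h5, h6, h7, h8⟩ := hD x
  have hJ : J x = Jof e D x := by
    unfold Jof
    by_cases hx : e x = x
    · rw [h5 hx, hx]
    · rw [h6 hx]
  have hJy : ∀ y, e y = x → J y = Jof e D y := by
    intro y hy
    by_cases hyx : y = x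
    · rw [hyx]; exact hJ
    · unfold Jof
      rw [h7 y hyx hy, hy]
  intro hcon
  apply h8
  rw [← hcon]
  apply hf
  intro z hz
  by_cases hzx : rk z < rk x
  · obtain ⟨h9, h10⟩ := F.low x z hz hzx
    unfold kof
    rw [if_neg h9]
    by_cases h11 : z = h x
    · rw [colx_lt_eq hzx h11, h11]
      by_cases h12 : kd x = 1
      · rw [if_pos h12]
      · rw [if_neg h12]
    · rw [colx_lt_ne hzx h11]
      rcases h10 with h10 | ⟨h10, h12⟩
      · exact absurd h10 h11
      · rw [if_neg h10, h12]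
  · rw [colx_ge hzx]
    show (D₀ z).1 (Tt h kd I J z) = (D₀ z).1 (Tt h kd (Iof D) (Jof e D) z)
    have hzne : z ≠ x := fun h => G.loopless.irrefl x (by rw [h] at hz; exact hz)
    have hlt : rk x < rk z := by
      have : rk x ≠ rk z := fun h => hzne (F.inj h).symm
      omega
    obtain ⟨h9, h10⟩ := F.low z x hz.symm hlt
    unfold Tt
    rw [if_neg h9, if_neg h9]
    by_cases h11 : kd z = 1
    · rw [if_pos h11, if_pos h11]
      rcases h10 with h10 | ⟨h10, _⟩
      · rw [← h10, h4]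
        rfl
      · exact absurd h11 h10
    · rw [if_neg h11, if_neg h11]
      rcases h10 with h10 | ⟨_, h12⟩
      · rw [← h10, hJ]
      · rw [hJy (h z) h12.symm]

end

end Pool.Agent.Lib.MP_994fee_co.Forest75
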