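import Mathlib
import Pool.Agent.Lib.MP_994fee_co.TreeLike
import Pool.Agent.Lib.MP_994fee_co.Forest.Defs76
import Pool.Agent.Lib.MP_994fee_co.Forest.Rec76

/-!
# The hat guessing number of a partner forest is at most 1008
-/

set_option autoImplicit false

namespace Pool.Agent.Lib.MP_994fee_co.Forest

open Finset

/-- A partner forest has a frame. -/
theorem exists_frame {V : Type} [Finite V] (G : SimpleGraph V) (hG : PartnerForest G) :
    ∃ (rk : V → ℕ) (h e : V → V) (kd : V → ℕ), Frame G rk h e kd := by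
  classical
  obtain ⟨rk, hinj, _, hP⟩ := hG
  have he : ∀ x, ∃ u, ((∃ v u', G.Adj v u' ∧ G.Adj v x ∧ rk u' < rk x ∧ rk x < rk v) →
      ∃ v, G.Adj v u ∧ G.Adj v x ∧ rk u < rk x ∧ rk x < rk v) ∧
      ((¬ ∃ v u', G.Adj v u' ∧ G.Adj v x ∧ rk u' < rk x ∧ rk x < rk v) → u = x) := by
    intro x
    by_cases h1 : ∃ v u', G.Adj v u' ∧ G.Adj v x ∧ rk u' < rk x ∧ rk x < rk v
    · obtain ⟨v, u, hu⟩ := h1
      exact ⟨u, fun _ => ⟨v, hu⟩, fun h2 => absurd ⟨v, u, hu⟩ h2⟩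
    · exact ⟨x, fun h2 => absurd h2 h1, fun _ => rfl⟩
  have hh : ∀ w, ∃ z, (∃ z', G.Adj w z' ∧ rk z' < rk w) → (G.Adj w z ∧ rk z < rk w) ∧
      ∀ z', G.Adj w z' → rk z' < rk w → rk z' ≤ rk z := by
    intro w
    by_cases h1 : ∃ z', G.Adj w z' ∧ rk z' < rk w
    · obtain ⟨z, hz, hz'⟩ := Set.exists_max_image {z | G.Adj w z ∧ rk z < rk w} rk
        (Set.toFinite _) h1
      exact ⟨z, fun _ => ⟨hz, fun z' h2 h3 => hz' z' ⟨h2, h3⟩⟩⟩
    · exact ⟨w, fun h2 => absurd h2 h1⟩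
  choose e he1 he2 using he
  choose h hh using hh
  have hkd : ∀ w, ∃ k : ℕ, (k ≠ 0 ↔ ∃ z, G.Adj w z ∧ rk z < rk w) ∧
      (k ≠ 0 → (k ≠ 1 ↔ ∃ z, G.Adj w z ∧ rk z < rk w ∧ z ≠ h w)) := by
    intro w
    by_cases h1 : ∃ z, G.Adj w z ∧ rk z < rk w
    · by_cases h2 : ∃ z, G.Adj w z ∧ rk z < rk w ∧ z ≠ h w
      · exact ⟨2, ⟨fun _ => h1, fun _ => by norm_num⟩, fun _ => ⟨fun _ => h2, fun _ => by norm_num⟩⟩
      · exact ⟨1, ⟨fun _ => h1, fun _ => by norm_num⟩,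
          fun _ => ⟨fun h3 => absurd rfl h3, fun h3 => absurd h3 h2⟩⟩
    · exact ⟨0, ⟨fun h3 => absurd rfl h3, fun h3 => absurd h3 h1⟩, fun h3 => absurd rfl h3⟩
  choose kd hk0 hk1 using hkd
  have hey : ∀ y, e y ≠ y → ∃ v, G.Adj v (e y) ∧ G.Adj v y ∧ rk (e y) < rk y ∧ rk y < rk v := by
    intro y hy
    apply he1
    by_contra h2
    exact hy (he2 y h2)
  refine ⟨rk, h, e, kd, hinj, ?_, ?_, ?_, ?_, ?_⟩
  · intro y hy
    obtain ⟨v, _, _, h3, _⟩ := hey y hy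
    exact h3
  · intro w hw
    exact ((hh w) ((hk0 w).1 hw)).1.2
  · intro w hw hw1
    obtain ⟨z, hz1, hz2, hz3⟩ := (hk1 w hw).1 hw1
    obtain ⟨⟨h4, h5⟩, h6⟩ := hh w ((hk0 w).1 hw)
    have h7 : rk z < rk (h w) := lt_of_le_of_ne (h6 z hz1 hz2) (fun h8 => hz3 (hinj h8))
    obtain ⟨v, _, _, h8, _⟩ := he1 (h w) ⟨w, z, hz1, h4, h7, h5⟩
    intro h9
    rw [h9] at h8
    exact lt_irrefl _ h8
  · intro x z hz hlt
    have h0 : kd x ≠ 0 := (hk0 x).2 ⟨z, hz, hlt⟩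
    refine ⟨h0, ?_⟩
    by_cases h1 : z = h x
    · exact Or.inl h1
    · have h2 : kd x ≠ 1 := (hk1 x h0).2 ⟨z, hz, hlt, h1⟩
      refine Or.inr ⟨h2, ?_⟩
      obtain ⟨⟨h4, h5⟩, h6⟩ := hh x ⟨z, hz, hlt⟩
      have h7 : rk z < rk (h x) := lt_of_le_of_ne (h6 z hz hlt) (fun h8 => h1 (hinj h8))
      obtain ⟨v, h8, h9, h10, h11⟩ := he1 (h x) ⟨x, z, hz, h4, h7, h5⟩
      exact (hP v (e (h x)) (h x) h8 h9 h10 h11).2 x z hz h4 h7 h5
  · intro y hy hk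
    obtain ⟨v, h1, h2, h3, h4⟩ := hey y hy
    obtain ⟨⟨h5, h6⟩, _⟩ := hh y ((hk0 y).1 hk)
    exact (hP v (e y) y h1 h2 h3 h4).1 (h y) h5 h6

/-- The players lose the game with one guess and 1009 colours on a partner forest. -/
theorem losesOn_of_lemmaM (hM : LemmaM) {V : Type} (G : SimpleGraph V) (S : Finset V)
    (h : PartnerForest (G.induce (S : Set V))) : TL.LosesOn G S 1 1009 := by
  classical
  intro g hg hgs
  obtain ⟨rk, hh, e, kd, F⟩ := exists_frame _ h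
  let ext : (↥(S : Set V) → Fin 1009) → V → ℕ := fun C v =>
    if hv : v ∈ (S : Set V) then (C ⟨v, hv⟩ : ℕ) else 0
  have hext : ∀ (C : ↥(S : Set V) → Fin 1009) (v : ↥(S : Set V)), ext C v = (C v : ℕ) := by
    intro C v
    simp only [ext, v.2, dif_pos]
  have hlt : ∀ (C : ↥(S : Set V) → Fin 1009) (v : V), ext C v < 1009 := by
    intro C v
    simp only [ext]
    split_ifs
    · exact Fin.is_lt _
    · norm_num
  have hloc : ∀ (x : ↥(S : Set V)) (C C' : ↥(S : Set V) → Fin 1009),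
      (∀ z, (G.induce (S : Set V)).Adj x z → C z = C' z) → g x (ext C) = g x (ext C') := by
    intro x C C' hCC
    apply hg x x.2
    intro u hu hxu
    have h1 := hCC ⟨u, hu⟩ hxu
    rw [hext C ⟨u, hu⟩, hext C' ⟨u, hu⟩, h1]
  obtain ⟨C, hC⟩ := game (q := 1009) hM (r := 144) (c := 6) (g := 9) (by norm_num) (by norm_num)
    (by norm_num) (by norm_num) F
    (fun x C => if h1 : ∃ a : Fin 1009, (a : ℕ) ∈ g x (ext C) then Classical.choose h1 else 0)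
    (by
      intro x C C' hCC
      have h1 := hloc x C C' hCC
      simp only [h1])
  refine ⟨ext C, fun v => hlt C v, fun v hv hcon => ?_⟩
  have h1 := hC ⟨v, hv⟩
  rw [hext C ⟨v, hv⟩] at hcon
  have h2 : ∃ a : Fin 1009, (a : ℕ) ∈ g (⟨v, hv⟩ : ↥(S : Set V)) (ext C) := ⟨C ⟨v, hv⟩, hcon⟩
  rw [dif_pos h2] at h1
  apply h1
  refine Fin.ext ?_
  exact Finset.card_le_one.1 (hgs v hv (ext C)) _ (Classical.choose_spec h2) _ hcon

end Pool.Agent.Lib.MP_994fee_co.Forest
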